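import Pool.Agent.Helper725_HQ.FUni

/-! Positive proportion of nonvanishing toric periods for every Hecke eigenform on the Hamilton
quaternions which is new of tame level five, invariant under the involution at five, and fixed by
the unramified torus at three, in all weights and of all conductors at three simultaneously. -/

set_option autoImplicit false

open Quaternion NumberField MvPolynomial Pool.Agent.Helper725_HQ

theorem Pool.Agent.Results.MP_7c5fb9_nt.HamiltonLevel5.result :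
    ∀ T : Finset ℕ, (∀ p ∈ T, p.Prime) → ∀ δ : ∀ (p : ℕ) [Fact p.Prime], ℚ_[p],
      (∀ (p : ℕ) [Fact p.Prime], δ p ≠ 0) → ¬ IsSquare (δ 2) → (3 ∈ T → IsSquare (-δ 3)) →
      (5 ∈ T → ∀ [Fact (Nat.Prime 5)], IsSquare (δ 5) ∨ Odd (δ 5).valuation) →
      ∃ e : ℝ, 0 < e ∧ ∃ x₀ : ℝ, ∀ x : ℝ, x₀ ≤ x → ∃ S : Finset (IntermediateField ℚ ℂ),
        e * x ≤ (S.card : ℝ) ∧ ∀ E ∈ S, ∃ _ : NumberField E, Module.finrank ℚ E = 2 ∧
          |(discr E : ℝ)| < x ∧ (∀ p ∈ T, ∀ [Fact p.Prime], Loc p (δ p) E) ∧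
          ∀ n k : ℕ, ∀ F : AddSubgroup ℍ[ℚ] → AddSubgroup ℍ[ℚ] → ℍ[ℚ] → MvPolynomial (Fin 3) ℂ,
            IsForm5 n k F → (∃ I I' u, F I I' u ≠ 0) →
            (∀ p : ℕ, p = 7 ∨ p = 11 ∨ p = 13 → ∃ lam : ℂ, ∀ I I' u, IsPair 5 I I' →
              GenAt3 I u → heckeC p F I I' u = lam • F I I' u) →
            NonvanPer5 n F E :=
  fun T hT δ hδ0 hδ2 hδ3 hδ5 => E5.many5 T hT δ hδ0 hδ2 hδ3 hδ5
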