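import Pool.Agent.Helper725_HQ.RCUni

/-! Positive proportion of nonvanishing toric periods for every Hecke eigenform on the Hamilton
quaternions which is unramified outside three and two, of conductor two or four at two and fixed by
the ramified torus `ℚ₃(√3)` at three, in all weights and of all conductors at three
simultaneously. -/

set_option autoImplicit false

open Quaternion NumberField MvPolynomial Pool.Agent.Helper725_HQ

theorem Pool.Agent.Results.MP_7c5fb9_nt.HamiltonRamifiedTorus.result :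
    ∀ T : Finset ℕ, (∀ p ∈ T, p.Prime) → ∀ δ : ∀ (p : ℕ) [Fact p.Prime], ℚ_[p],
      (∀ (p : ℕ) [Fact p.Prime], δ p ≠ 0) → ¬ IsSquare (δ 2) → (3 ∈ T → IsSquare (3 * δ 3)) →
      ∃ e : ℝ, 0 < e ∧ ∃ x₀ : ℝ, ∀ x : ℝ, x₀ ≤ x → ∃ S : Finset (IntermediateField ℚ ℂ),
        e * x ≤ (S.card : ℝ) ∧ ∀ E ∈ S, ∃ _ : NumberField E, Module.finrank ℚ E = 2 ∧
          |(discr E : ℝ)| < x ∧ (∀ p ∈ T, ∀ [Fact p.Prime], Loc p (δ p) E) ∧
          ∀ c n k : ℕ, (c = 2 ∨ c = 4 ∧ ¬ IsSquare (-3 * δ 2)) →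
            ∀ F : AddSubgroup ℍ[ℚ] → AddSubgroup ℍ[ℚ] → ℍ[ℚ] → MvPolynomial (Fin 3) ℂ,
            IsFormRC c n k F → (∃ I I' u, F I I' u ≠ 0) →
            (∀ p : ℕ, p = 5 ∨ p = 7 ∨ c = 4 ∧ p = 13 → ∃ lam : ℂ, ∀ I I' u, PairC c I I' →
              GenAt3 I u → heckeC p F I I' u = lam • F I I' u) →
            NonvanPerRC c n F E :=
  fun T hT δ hδ0 hδ2 hδ3 => RR.manyRC T hT δ hδ0 hδ2 hδ3
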