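import Pool.Agent.Helper725_HQ.MUni

/-! Positive proportion of nonvanishing toric periods, with local conditions (the field `E` may be
ramified or split at three) and simultaneously for all weights, for the eigenforms on the Hamilton
quaternions of conductor two and slope less than three at three, and of conductor four and slope
one at three. -/

set_option autoImplicit false

open Quaternion NumberField MvPolynomial Pool.Agent.Helper725_HQ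

theorem Pool.Agent.Results.MP_7c5fb9_nt.HamiltonSmallSlope.result :
    (∀ c k : ℕ, Even k → (c = 2 ∧ k ≠ 0 ∧ k % 3 ≠ 2 ∨ c = 4 ∧ k % 3 ≠ 0) →
      ∃ F : AddSubgroup ℍ[ℚ] → AddSubgroup ℍ[ℚ] → MvPolynomial (Fin 3) ℂ, SlopeD c k F) ∧
    ∀ T : Finset ℕ, (∀ p ∈ T, p.Prime) → ∀ δ : ∀ (p : ℕ) [Fact p.Prime], ℚ_[p],
      (∀ (p : ℕ) [Fact p.Prime], δ p ≠ 0) → ¬ IsSquare (δ 2) →
      ∃ e : ℝ, 0 < e ∧ ∃ x₀ : ℝ, ∀ x : ℝ, x₀ ≤ x → ∃ S : Finset (IntermediateField ℚ ℂ),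
        e * x ≤ (S.card : ℝ) ∧ ∀ E ∈ S, ∃ _ : NumberField E, Module.finrank ℚ E = 2 ∧
          |(discr E : ℝ)| < x ∧ (∀ p ∈ T, ∀ [Fact p.Prime], Loc p (δ p) E) ∧
          ∀ c k : ℕ, Even k →
            (c = 2 ∧ 4 ≤ k ∧ (3 ∈ T → k % 9 = 8 → ¬ IsSquare (δ 3)) ∨
              c = 4 ∧ k ≠ 0 ∧ ¬ IsSquare (-3 * δ 2) ∧ (3 ∈ T → ¬ IsSquare (-3 * δ 3))) →
            ∀ F : AddSubgroup ℍ[ℚ] → AddSubgroup ℍ[ℚ] → MvPolynomial (Fin 3) ℂ,
              SlopeD c k F → NonvanPerS c F E :=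
  ⟨fun _ _ hk h => (exists_slopeC hk h).imp fun _ h => slopeD_of _ h,
    fun T hT δ hδ0 hδ2 => manySlopeB T hT δ hδ0 hδ2⟩
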